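import Pool.Agent.H76.MXT.Stmts

set_option autoImplicit false

namespace Pool.MXT

theorem cut_thm (h1 : S_TUR) : S_CUT := by
  intro F a b c d hab hcd
  constructor
  · intro m hm hc hd
    have e1 := (h1 _ a b hab hc).1 m hm
    have e2 := (h1 _ a b hab hd).1 m hm
    unfold wnd
    rw [e1, e2]
    ring
  · intro m hm ha hb
    have e1 := (h1 _ c d hcd ha).1 m hm
    have e2 := (h1 _ c d hcd hb).1 m hm
    unfold wnd
    rw [e1, e2]
    ring

end Pool.MXT
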